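import Mathlib

set_option autoImplicit false

namespace Pool.Agent.Results.MP_23516e_gt.Cleav

open Set Filter Topology Cardinal Ordinal

/-- `X` is cleavable over `Y`. -/
def Cleavable (X Y : Type) [TopologicalSpace X] [TopologicalSpace Y] : Prop :=
  ∀ A : Set X, ∃ f : X → Y, Continuous f ∧ f ⁻¹' (f '' A) = A

section
variable {α β : Type} [LinearOrder α] [WellFoundedLT α] [TopologicalSpace α] [OrderTopology α]

lemma low {S : Set α} (h : IsLowerSet S) : IsOpen S := by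
  by_cases e : Sᶜ.Nonempty
  · have : S = Iio (wellFounded_lt.min _ e) := Set.ext fun x => ⟨fun hx => lt_of_not_ge fun e1 =>
      wellFounded_lt.min_mem _ e (h e1 hx), fun hx => by_contra fun e1 => wellFounded_lt.not_lt_min _ e1 hx⟩
    rw [this]; exact isOpen_Iio
  · rw [not_nonempty_iff_eq_empty, compl_empty_iff] at e
    rw [e]; exact isOpen_univ

lemma nbh {y : α} {S : Set α} (h : (∀ x ≤ y, x ∈ S) ∨ ∃ z < y, ∀ x, z < x → x ≤ y → x ∈ S) : S ∈ 𝓝 y := by
  have e := (low (isLowerSet_Iic y)).mem_nhds self_mem_Iic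
  rcases h with h | ⟨z, z1, h⟩
  · exact mem_of_superset e h
  · exact mem_of_superset (inter_mem (Ioi_mem_nhds z1) e) fun x hx => h x hx.1 hx.2

lemma cont [LinearOrder β] [TopologicalSpace β] [OrderTopology β] {f : α → β} (hf : Monotone f)
    (h : ∀ y a, a < f y → IsBot y ∨ ∃ z < y, ∀ w, z < w → w ≤ y → a < f w) : Continuous f :=
  OrderTopology.continuous_iff.2 fun a => ⟨isOpen_iff_mem_nhds.2 fun y hy => nbh ((h y a hy).imp
    (fun (e : IsBot y) x hx => (hx.antisymm (e x)).symm ▸ hy) id), low ((isLowerSet_Iio a).preimage hf)⟩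
end

abbrev O : Type := (ℵ₁ : Cardinal.{0}).ord.ToType
instance : Uncountable O := by rw [← aleph0_lt_mk_iff]; simp [aleph0_lt_aleph_one]
noncomputable instance : OrderBot O := WellFoundedLT.toOrderBot O
abbrev W : Type := WithTop O
abbrev Y : Type := WithTop (ℕ ×ₗ W)
abbrev L : Type := Fin 2 ×ₗ Y
noncomputable instance : TopologicalSpace Y := Preorder.topology Y
instance : OrderTopology Y := ⟨rfl⟩
noncomputable instance : TopologicalSpace L := Preorder.topology L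
instance : OrderTopology L := ⟨rfl⟩

noncomputable instance : CompactSpace Y := by
  letI := WellFoundedLT.conditionallyCompleteLinearOrderBot Y
  exact ⟨by simpa using (isCompact_Icc : IsCompact (Icc (⊥ : Y) ⊤))⟩

def p (k : ℕ) (w : W) : Y := (toLex (k, w) : ℕ ×ₗ W)

lemma plt {k m : ℕ} {v w : W} : p k v < p m w ↔ k < m ∨ k = m ∧ v < w := by simp [p, Prod.Lex.toLex_lt_toLex]
lemma ple {k m : ℕ} {v w : W} : p k v ≤ p m w ↔ k < m ∨ k = m ∧ v ≤ w := by simp [p, Prod.Lex.toLex_le_toLex]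
lemma ptop {k : ℕ} {v : W} : p k v < ⊤ := WithTop.coe_lt_top _
lemma pinj {k m : ℕ} {v w : W} : p k v = p m w ↔ k = m ∧ v = w := by simp [p]
lemma cs (y : Y) : y = ⊤ ∨ ∃ k w, y = p k w := by
  induction y using WithTop.recTopCoe with
  | top => exact Or.inl rfl
  | coe a => exact Or.inr ⟨(ofLex a).1, (ofLex a).2, rfl⟩

def g (b : ℕ) : Y → Y := WithTop.map fun a => toLex (2 * (ofLex a).1 + b, (ofLex a).2)
lemma gp (b k : ℕ) (w : W) : g b (p k w) = p (2 * k + b) w := rfl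
lemma gt (b : ℕ) : g b ⊤ = ⊤ := rfl

lemma gm (b : ℕ) : StrictMono (g b) := fun x y h => by
  rcases cs x with rfl | ⟨k, v, rfl⟩
  · exact (not_top_lt h).elim
  rcases cs y with rfl | ⟨m, w, rfl⟩
  · exact ptop
  rw [gp, gp, plt]
  exact (plt.1 h).imp (by omega) fun e => ⟨by rw [e.1], e.2⟩

lemma gc (b : ℕ) : Continuous (g b) := cont (gm b).monotone fun y a h => by
  rcases cs a with rfl | ⟨k, v, rfl⟩
  · exact (not_top_lt h).elim
  rcases cs y with rfl | ⟨m, w, rfl⟩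
  · refine Or.inr ⟨p k ⊤, ptop, fun x hx _ => lt_of_le_of_lt ?_ (gm b hx)⟩
    rw [gp, ple]
    exact (show k ≤ 2 * k + b by omega).lt_or_eq.imp id fun e => ⟨e, le_top⟩
  rcases plt.1 h with e | ⟨rfl, e⟩; swap
  · exact Or.inr ⟨p m v, plt.2 (Or.inr ⟨rfl, e⟩), fun x hx _ => gm b hx⟩
  rcases eq_bot_or_bot_lt w with rfl | e1; swap
  · exact Or.inr ⟨p m ⊥, plt.2 (Or.inr ⟨rfl, e1⟩), fun x hx _ => (plt.2 (Or.inl e)).trans (gm b hx)⟩
  cases m with
  | zero => exact Or.inl isBot_bot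
  | succ m =>
    refine Or.inr ⟨p m ⊤, plt.2 (Or.inl m.lt_succ_self), fun x hx _ => h.trans_le ((gm b).monotone ?_)⟩
    rcases cs x with rfl | ⟨n, u, rfl⟩
    · exact le_top
    exact ple.2 (((plt.1 hx).resolve_right fun e => not_top_lt e.2).nat_succ_le.lt_or_eq.imp id fun e => ⟨e, bot_le⟩)

lemma ic (c : Fin 2) : Continuous fun y : Y => (toLex (c, y) : L) :=
  cont (fun _ _ h => Prod.Lex.toLex_le_toLex.2 (Or.inr ⟨rfl, h⟩)) fun y a h => by
    rcases eq_bot_or_bot_lt y with rfl | e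
    · exact Or.inl isBot_bot
    rcases Prod.Lex.lt_iff.1 h with h | h
    · exact Or.inr ⟨⊥, e, fun w _ _ => Prod.Lex.lt_iff.2 (Or.inl h)⟩
    · exact Or.inr ⟨_, h.2, fun w hw _ => Prod.Lex.lt_iff.2 (Or.inr ⟨h.1, hw⟩)⟩

lemma nb (c : Fin 2) (k : ℕ) (w : W) : (fun v => (toLex (c, p k v) : L)) '' Iic w ∈ 𝓝 (toLex (c, p k w)) := by
  have H : ∀ x : L, (ofLex x).1 = c → p k ⊥ ≤ (ofLex x).2 → x ≤ toLex (c, p k w) →
      x ∈ (fun v => (toLex (c, p k v) : L)) '' Iic w := fun x e1 e2 e3 => by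
    have e4 : (ofLex x).2 ≤ p k w := ((Prod.Lex.le_iff.1 e3).resolve_left e1.not_lt).2
    rcases cs (ofLex x).2 with e | ⟨m, v, e⟩ <;> rw [e] at e2 e4
    · exact (ptop.not_ge e4).elim
    obtain ⟨rfl, e5⟩ := (ple.1 e4).resolve_left fun e5 => (ple.1 e2).elim e5.asymm fun e6 => e5.ne' e6.1
    exact ⟨v, e5, by beta_reduce; rw [← e, ← e1]; rfl⟩
  refine nbh ?_
  cases k with
  | succ k =>
    refine Or.inr ⟨toLex (c, p k ⊤), Prod.Lex.toLex_lt_toLex.2 (Or.inr ⟨rfl, plt.2 (Or.inl k.lt_succ_self)⟩),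
      fun x e1 e2 => ?_⟩
    obtain ⟨e3, e4⟩ := (Prod.Lex.lt_iff.1 e1).resolve_left fun e => (Prod.Lex.le_iff.1 e2).elim e.asymm fun e' => e.ne' e'.1
    refine H x e3.symm ?_ e2
    rcases cs (ofLex x).2 with e | ⟨m, v, e⟩ <;> rw [e] at e4 ⊢
    · exact le_top
    exact ple.2 (((plt.1 e4).resolve_right fun e => not_top_lt e.2).nat_succ_le.lt_or_eq.imp id fun e => ⟨e, bot_le⟩)
  | zero =>
    fin_cases c
    · exact Or.inl fun x hx => H x ((Prod.Lex.le_iff.1 hx).elim (fun e => by simp at e) fun e => e.1) bot_le hx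
    · exact Or.inr ⟨toLex (0, ⊤), Prod.Lex.toLex_lt_toLex.2 (Or.inl (by simp)), fun x e1 e2 => H x
        ((Prod.Lex.lt_iff.1 e1).elim (fun e => Fin.eq_one_of_ne_zero _ e.ne') fun e => (not_top_lt e.2).elim) bot_le e2⟩

lemma cI (v : O) : (Iic (v : W)).Countable := by
  have : (Iio v).Countable := by
    rw [← le_aleph0_iff_set_countable, ← Order.lt_succ_iff, succ_aleph0]; exact mk_Iio_toType_ord_lt v
  refine ((this.insert v).image ((↑) : O → W)).mono fun w hw => ?_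
  obtain ⟨u, rfl⟩ := WithTop.ne_top_iff_exists.1 (hw.trans_lt (WithTop.coe_lt_top v)).ne
  exact ⟨u, (WithTop.coe_le_coe.1 hw).eq_or_lt, rfl⟩

lemma unc (m : ℕ) (S : Set Y) (h : S ∈ 𝓝 (p m ⊤)) : ¬ S.Countable := fun hS => by
  obtain ⟨z, z1, z2⟩ := exists_Ioc_subset_of_mem_nhds h ⟨p m ⊥, plt.2 (Or.inr ⟨rfl, bot_lt_top⟩)⟩
  have e1 := hS.preimage_of_injOn (f := p m) fun _ _ _ _ e => (pinj.1 e).2
  have e2 : (p m ⁻¹' Iic z).Countable := by
    rcases cs z with rfl | ⟨k, v, rfl⟩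
    · exact (not_top_lt z1).elim
    rcases plt.1 z1 with e | ⟨rfl, e⟩
    · exact countable_empty.mono fun w hw => (ple.1 hw).elim e.asymm fun e' => e.ne' e'.1
    obtain ⟨u, rfl⟩ := WithTop.ne_top_iff_exists.1 e.ne
    exact (cI u).mono fun w hw => ((ple.1 hw).resolve_left (lt_irrefl _)).2
  refine not_countable_univ (((e1.union e2).preimage_of_injOn (f := ((↑) : O → W)) WithTop.coe_injective.injOn).mono
    fun u _ => ?_)
  exact (le_or_gt (p m u) z).symm.imp (fun e => z2 ⟨e, ple.2 (Or.inr ⟨rfl, le_top⟩)⟩) id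

theorem result : ∃ (L : Type) (_ : LinearOrder L) (_ : WellFoundedLT L) (_ : TopologicalSpace L) (_ : OrderTopology L)
    (X : Type) (_ : TopologicalSpace X), ω₁ < Ordinal.type (fun a b : L => a < b) ∧ CompactSpace X ∧ T2Space X ∧
    Infinite X ∧ Cleavable X L ∧ ¬ ∃ e : X → L, IsEmbedding e := by
  classical
  refine ⟨L, inferInstance, inferInstance, inferInstance, inferInstance, Fin 3 × Y, inferInstance, ?_, inferInstance,
    inferInstance, .of_injective (fun k => (0, p k ⊤)) fun _ _ e => by simpa [pinj] using e, fun A => ?_, fun ⟨e, he⟩ => ?_⟩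
  · refine lt_of_le_of_lt ?_ (typein_lt_type _ (toLex (0, ⊤)))
    rw [← ord_aleph, ord_le, card_typein]
    refine succ_aleph0.ge.trans (Order.succ_le_iff.2 (aleph0_lt_mk_iff.2 ?_))
    exact Function.Injective.uncountable (f := fun u : O => ⟨toLex (0, p 0 u), Prod.Lex.toLex_lt_toLex.2
      (Or.inr ⟨rfl, ptop⟩)⟩) fun u v e => by simpa [pinj] using e
  · obtain ⟨c, hc⟩ : ∃ c : Fin 3 → Fin 2, ∀ i j, c i = c j → ((i, ⊤) ∈ A ↔ (j, ⊤) ∈ A) :=
      ⟨fun i => if (i, ⊤) ∈ A then 0 else 1, fun i j => by beta_reduce; split_ifs <;> simp [*]⟩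
    let h : Fin 3 → Y → Y := ![g 0, g 1 ∘ g 0, g 1 ∘ g 1]
    refine ⟨fun x => toLex (c x.1, h x.1 x.2), continuous_prod_of_discrete_left.2 fun i => (ic (c i)).comp (by
      fin_cases i
      exacts [gc 0, (gc 1).comp (gc 0), (gc 1).comp (gc 1)]), (subset_preimage_image _ _).antisymm' ?_⟩
    rintro ⟨i, y⟩ ⟨⟨j, z⟩, hz, e⟩
    obtain ⟨e1, e2⟩ := Prod.mk.inj (toLex.injective e)
    rcases cs y with rfl | ⟨k, v, rfl⟩ <;> rcases cs z with rfl | ⟨m, w, rfl⟩
    · exact (hc j i e1).1 hz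
    · fin_cases i <;> fin_cases j <;> exact (ptop.ne e2).elim
    · fin_cases i <;> fin_cases j <;> exact (ptop.ne' e2).elim
    let r : Fin 3 → ℕ → ℕ := ![fun k => 2 * k + 0, fun k => 2 * (2 * k + 0) + 1, fun k => 2 * (2 * k + 1) + 1]
    have hr : ∀ i k w, h i (p k w) = p (r i k) w := fun i k w => by fin_cases i <;> rfl
    obtain ⟨e3, rfl⟩ := pinj.1 (((hr _ _ _).symm.trans e2).trans (hr _ _ _))
    obtain ⟨rfl, rfl⟩ : j = i ∧ m = k := by fin_cases i <;> fin_cases j <;> simp [r] at e3 ⊢ <;> omega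
    exact hz
  have k1 : ∀ j m c k (v : O), e (j, p m ⊤) ≠ toLex (c, p k v) := fun j m c k v h =>
    unc m _ ((he.continuous.comp (Continuous.prodMk_right j)).continuousAt.preimage_mem_nhds (h.symm ▸ nb c k v))
      (((cI v).image _).preimage_of_injOn (he.injective.comp (Prod.mk_right_injective j)).injOn)
  have k2 : ∀ j, (ofLex (e (j, ⊤))).2 = ⊤ := fun j => (cs _).resolve_right fun ⟨k, w, h⟩ => by
    have h' : e (j, ⊤) = toLex ((ofLex (e (j, ⊤))).1, p k w) := by rw [← h]; rfl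
    obtain ⟨z, z1, z2⟩ := exists_Ioc_subset_of_mem_nhds ((he.continuous.comp (Continuous.prodMk_right j)).continuousAt
      |>.preimage_mem_nhds (h'.symm ▸ nb _ k w)) ⟨_, ptop (k := 0) (v := ⊥)⟩
    obtain ⟨m, u, rfl⟩ := (cs z).resolve_left z1.ne
    have t : ∀ n, m < n → e (j, p n ⊤) = toLex ((ofLex (e (j, ⊤))).1, p k ⊤) := fun n hn => by
      obtain ⟨v, -, hv⟩ := z2 ⟨plt.2 (Or.inl hn), le_top⟩
      induction v using WithTop.recTopCoe with
      | top => exact hv.symm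
      | coe v => exact (k1 _ _ _ _ _ hv.symm).elim
    simpa [pinj] using he.injective ((t (m + 1) (by omega)).trans (t (m + 2) (by omega)).symm)
  have := Fintype.card_le_of_injective (fun j : Fin 3 => (ofLex (e (j, ⊤))).1) fun i j h =>
    congrArg Prod.fst (he.injective (ofLex.injective (Prod.ext h ((k2 i).trans (k2 j).symm))))
  simp at this

end Pool.Agent.Results.MP_23516e_gt.Cleav
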